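import Pool.Agent.Helper85.IW.Poly

set_option autoImplicit false
set_option maxRecDepth 100000
set_option maxHeartbeats 4000000

namespace Helper85.IW

theorem m2_eq (θ x : ℝ) : m2 θ x = 1 / 25 + ((1 - x) ^ 8 * x ^ 0 * ((50031/4000000) * (2 * θ) ^ 0 * (1 - 2 * θ) ^ 4 + (50031/1000000) * (2 * θ) ^ 1 * (1 - 2 * θ) ^ 3 + (150093/2000000) * (2 * θ) ^ 2 * (1 - 2 * θ) ^ 2 + (50031/1000000) * (2 * θ) ^ 3 * (1 - 2 * θ) ^ 1 + (50031/4000000) * (2 * θ) ^ 4 * (1 - 2 * θ) ^ 0)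
      + (1 - x) ^ 7 * x ^ 1 * ((589177/2000000) * (2 * θ) ^ 0 * (1 - 2 * θ) ^ 4 + (2289271/2000000) * (2 * θ) ^ 1 * (1 - 2 * θ) ^ 3 + (3332751/2000000) * (2 * θ) ^ 2 * (1 - 2 * θ) ^ 2 + (2154397/2000000) * (2 * θ) ^ 3 * (1 - 2 * θ) ^ 1 + (26087/100000) * (2 * θ) ^ 4 * (1 - 2 * θ) ^ 0)
      + (1 - x) ^ 6 * x ^ 2 * ((7654143/4000000) * (2 * θ) ^ 0 * (1 - 2 * θ) ^ 4 + (14087033/2000000) * (2 * θ) ^ 1 * (1 - 2 * θ) ^ 3 + (18993851/2000000) * (2 * θ) ^ 2 * (1 - 2 * θ) ^ 2 + (11034889/2000000) * (2 * θ) ^ 3 * (1 - 2 * θ) ^ 1 + (4601999/4000000) * (2 * θ) ^ 4 * (1 - 2 * θ) ^ 0)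
      + (1 - x) ^ 5 * x ^ 3 * ((2294753/400000) * (2 * θ) ^ 0 * (1 - 2 * θ) ^ 4 + (80943929/4000000) * (2 * θ) ^ 1 * (1 - 2 * θ) ^ 3 + (41259553/1600000) * (2 * θ) ^ 2 * (1 - 2 * θ) ^ 2 + (88431/6400) * (2 * θ) ^ 3 * (1 - 2 * θ) ^ 1 + (20233783/8000000) * (2 * θ) ^ 4 * (1 - 2 * θ) ^ 0)
      + (1 - x) ^ 4 * x ^ 4 * ((610157/62500) * (2 * θ) ^ 0 * (1 - 2 * θ) ^ 4 + (33476083/1000000) * (2 * θ) ^ 1 * (1 - 2 * θ) ^ 3 + (41078057/1000000) * (2 * θ) ^ 2 * (1 - 2 * θ) ^ 2 + (33287009/1600000) * (2 * θ) ^ 3 * (1 - 2 * θ) ^ 1 + (2201521/640000) * (2 * θ) ^ 4 * (1 - 2 * θ) ^ 0)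
      + (1 - x) ^ 3 * x ^ 5 * ((20580567/2000000) * (2 * θ) ^ 0 * (1 - 2 * θ) ^ 4 + (138528371/4000000) * (2 * θ) ^ 1 * (1 - 2 * θ) ^ 3 + (331317669/8000000) * (2 * θ) ^ 2 * (1 - 2 * θ) ^ 2 + (161450471/8000000) * (2 * θ) ^ 3 * (1 - 2 * θ) ^ 1 + (49730897/16000000) * (2 * θ) ^ 4 * (1 - 2 * θ) ^ 0)
      + (1 - x) ^ 2 * x ^ 6 * ((5393987/800000) * (2 * θ) ^ 0 * (1 - 2 * θ) ^ 4 + (17888043/800000) * (2 * θ) ^ 1 * (1 - 2 * θ) ^ 3 + (419344029/16000000) * (2 * θ) ^ 2 * (1 - 2 * θ) ^ 2 + (198663243/16000000) * (2 * θ) ^ 3 * (1 - 2 * θ) ^ 1 + (116721587/64000000) * (2 * θ) ^ 4 * (1 - 2 * θ) ^ 0)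
      + (1 - x) ^ 1 * x ^ 7 * ((4997819/2000000) * (2 * θ) ^ 0 * (1 - 2 * θ) ^ 4 + (16412627/2000000) * (2 * θ) ^ 1 * (1 - 2 * θ) ^ 3 + (75691827/8000000) * (2 * θ) ^ 2 * (1 - 2 * θ) ^ 2 + (35006877/8000000) * (2 * θ) ^ 3 * (1 - 2 * θ) ^ 1 + (19791133/32000000) * (2 * θ) ^ 4 * (1 - 2 * θ) ^ 0)
      + (1 - x) ^ 0 * x ^ 8 * ((1558499/4000000) * (2 * θ) ^ 0 * (1 - 2 * θ) ^ 4 + (5157359/4000000) * (2 * θ) ^ 1 * (1 - 2 * θ) ^ 3 + (23525953/16000000) * (2 * θ) ^ 2 * (1 - 2 * θ) ^ 2 + (10626599/16000000) * (2 * θ) ^ 3 * (1 - 2 * θ) ^ 1 + (1148259/12800000) * (2 * θ) ^ 4 * (1 - 2 * θ) ^ 0)) := by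
  simp only [m2, Mxx, Myy, Mxy, q0x, q1x, r0, r1]
  ring

theorem m2_pos (θ x : ℝ) (h0 : 0 ≤ θ) (h1 : 2 * θ ≤ 1) (hx : 0 ≤ x) (hx1 : x ≤ 1) : 0 < m2 θ x := by
  have a : 0 ≤ 1 - 2 * θ := by linarith
  have b : 0 ≤ 1 - x := by linarith
  rw [m2_eq]
  positivity

theorem Mxx_pos (θ x : ℝ) (h0 : 0 ≤ θ) (h1 : 2 * θ ≤ 1) (hx : 0 ≤ x) (hx1 : x ≤ 1) : 0 < Mxx θ x := by
  have hb : 0 ≤ 1 - θ * x := by nlinarith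
  have hc : 0 < 1 - θ * x := by nlinarith
  unfold Mxx q0x q1x
  positivity

end Helper85.IW
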