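import Pool.Agent.Helper85.IW.Statements

set_option autoImplicit false
set_option maxSynthPendingDepth 3

namespace Helper85.IW

theorem D4 (h1 : StD4a) (h2 : StD4b) : StD4 := by
  intro α β A B z hz1 hz2 αr αs βr βs Ar As Br Bs hα hβ hA hB
  obtain ⟨d1, d2, h⟩ := h1 α β A B z hz1 hz2 αr αs βr βs Ar As Br Bs hα hβ hA hB
  refine ⟨d1, d2, fun X Y hXY => ?_⟩
  obtain ⟨a, b, c, a', b', c', hh⟩ := h2 z hz1 hz2 (α (‖z.1‖, ‖z.2‖)) αr αs (β (‖z.1‖, ‖z.2‖)) βr βs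
    (A (‖z.1‖, ‖z.2‖)) Ar As (B (‖z.1‖, ‖z.2‖)) Br Bs X Y hXY
  exact ⟨a, b, c, a', b', c', by rw [h X Y, hh]⟩

end Helper85.IW
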