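import Mathlib

/-!
# Certificate polynomials (MP_3dd6d4_an, n = 1, helper85)

`θ = 1/p`, `x = p r / (r + s)`, `w = θ x = r / (r + s)`.
-/

set_option autoImplicit false

namespace Helper85.IW

noncomputable section

/-- `f = 1 - 2/p` -/
def pf (θ : ℝ) : ℝ := 1 - 2 * θ
/-- `F = 1 + f/30` -/
def pF (θ : ℝ) : ℝ := 1 + (1 - 2 * θ) / 30
def h0 (θ x : ℝ) : ℝ := pF θ * x ^ 2 / 30 + 41 / 1000 * x ^ 3 * (pF θ * x - 1)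
def h1 (θ x : ℝ) : ℝ := pF θ * x / 15 + 41 / 1000 * (4 * pF θ * x ^ 3 - 3 * x ^ 2)
def h2 (θ x : ℝ) : ℝ := pF θ / 15 + 41 / 1000 * (12 * pF θ * x ^ 2 - 6 * x)
/-- `h0 / x` -/
def h0x (θ x : ℝ) : ℝ := pF θ * x / 30 + 41 / 1000 * x ^ 2 * (pF θ * x - 1)
/-- `h1 / x` -/
def h1x (θ x : ℝ) : ℝ := pF θ / 15 + 41 / 1000 * (4 * pF θ * x ^ 2 - 3 * x)
def q0 (x : ℝ) : ℝ := 17 / 1000 * x ^ 2 + 49 / 1000 * x ^ 3 + 78 / 1000 * x ^ 4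
def q1 (x : ℝ) : ℝ := 34 / 1000 * x + 147 / 1000 * x ^ 2 + 312 / 1000 * x ^ 3
/-- `q0 / x` -/
def q0x (x : ℝ) : ℝ := 17 / 1000 * x + 49 / 1000 * x ^ 2 + 78 / 1000 * x ^ 3
/-- `q0 / x²` -/
def q0xx (x : ℝ) : ℝ := 17 / 1000 + 49 / 1000 * x + 78 / 1000 * x ^ 2
/-- `q1 / x` -/
def q1x (x : ℝ) : ℝ := 34 / 1000 + 147 / 1000 * x + 312 / 1000 * x ^ 2
def r0 (x : ℝ) : ℝ := 1547 / 1000 - 1528 / 1000 * x + 1136 / 1000 * x ^ 2 - 392 / 1000 * x ^ 3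
def r1 (x : ℝ) : ℝ := -1528 / 1000 + 2272 / 1000 * x - 1176 / 1000 * x ^ 2

/-- `μ_h = h + (1-w) h'` -/
def mu (θ x : ℝ) : ℝ := h0 θ x + (1 - θ * x) * h1 θ x
def mux (θ x : ℝ) : ℝ := h0x θ x + (1 - θ * x) * h1x θ x
def mu1 (θ x : ℝ) : ℝ := (1 - θ) * h1 θ x + (1 - θ * x) * h2 θ x
/-- `ν_h = h - w h'` -/
def nu (θ x : ℝ) : ℝ := h0 θ x - θ * x * h1 θ x
def nu1 (θ x : ℝ) : ℝ := (1 - θ) * h1 θ x - θ * x * h2 θ x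
def ps (θ x : ℝ) : ℝ := 2 * h0 θ x + (1 - 2 * (θ * x)) * h1 θ x
def ps1 (θ x : ℝ) : ℝ := (2 - 2 * θ) * h1 θ x + (1 - 2 * (θ * x)) * h2 θ x

def Nvv (θ x : ℝ) : ℝ := h2 θ x
def Nvx (θ x : ℝ) : ℝ := (mu1 θ x - mux θ x + q1x x) / 2
def Nvy (θ x : ℝ) : ℝ := -(1 + (1 - θ * x) * nu1 θ x + θ * nu θ x + r1 x) / 2
def Mxx (θ x : ℝ) : ℝ := q0x x + (1 - θ * x) * q1x x
def Myy (θ x : ℝ) : ℝ := (r0 x - θ * x * r1 x) * (1 - θ * x)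
/-- twice the `xy` entry -/
def Mxy (θ x : ℝ) : ℝ := (q0x x - θ * x * q1x x) * (1 - θ * x) + r0 x + (1 - θ * x) * r1 x
def Pvv (θ x : ℝ) : ℝ := 4 * (1 - θ) * x + 2 * (1 - θ) * ps θ x + (1 - 2 * (θ * x)) * ps1 θ x
def Pvx (θ x : ℝ) : ℝ :=
  (2 * (1 - θ) * x + 2 * (1 - θ) * mu θ x + (1 - 2 * (θ * x)) * mu1 θ x - mux θ x
    + 2 * q0x x + (1 - 2 * (θ * x)) * q1x x) / 2
def Pvy (θ x : ℝ) : ℝ :=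
  (2 * (1 - θ) * x * (1 - θ * x) - 1
    + (2 * (1 - θ) * nu θ x + (1 - 2 * (θ * x)) * nu1 θ x) * (1 - θ * x) - θ * nu θ x
    + 2 * r0 x + (1 - 2 * (θ * x)) * r1 x) / 2

/-- `2×2` minor -/
def m2 (θ x : ℝ) : ℝ := Mxx θ x * Myy θ x - (Mxy θ x / 2) ^ 2

def detN (θ x : ℝ) : ℝ :=
  Nvv θ x * m2 θ x - (Nvx θ x ^ 2 * Myy θ x - 2 * Nvx θ x * Nvy θ x * (-(Mxy θ x) / 2)
    + Nvy θ x ^ 2 * Mxx θ x)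

def detP (θ x : ℝ) : ℝ :=
  Pvv θ x * m2 θ x - (Pvx θ x ^ 2 * Myy θ x - 2 * Pvx θ x * Pvy θ x * (Mxy θ x / 2)
    + Pvy θ x ^ 2 * Mxx θ x)

end

end Helper85.IW
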