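import Mathlib
import Pool.Agent.Helper72.BA.Defs
import Pool.Agent.Helper85.IW.Poly

/-!
# Near-sharp bound for the Beurling-Ahlfors transform: common definitions (helper85)

For `p > 2` we construct `U : ℂ × ℂ → ℝ` and a 1-form `η` on `ℂ × ℂ` such that `U (f, T f)` has a
nonnegative integral and `U (a, b) ≤ C^p |a|^p - |b|^p`, `C = p - 1 + (p - 2)/30`.
-/

set_option autoImplicit false

open MeasureTheory Complex
open scoped ENNReal NNReal ComplexConjugate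

noncomputable section

namespace Helper85.IW

open Helper72.BA

/-- the target space (values of `(f, T f)`) -/
abbrev E : Type := ℂ × ℂ

/-- Relation between the `x` and `y` derivatives of `(f, T f)`: `∂bar (T f) = ∂ f`. -/
def CR (X Y : E) : Prop := X.2 + I * Y.2 = X.1 - I * Y.1

/-- The quadratic form of the method. `A` is the derivative of `DU`, `B` the derivative of `η`. -/
def PIq (A B : E →L[ℝ] E →L[ℝ] ℝ) (X Y : E) : ℝ := A X X + A Y Y + B X Y - B Y X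

/-- `X ↦ Re (conj a * X)` -/
def reL (a : ℂ) : ℂ →L[ℝ] ℝ := Complex.reCLM.comp (ContinuousLinearMap.mul ℝ ℂ (conj a))

/-- `X ↦ Im (conj a * X)` -/
def imL (a : ℂ) : ℂ →L[ℝ] ℝ := Complex.imCLM.comp (ContinuousLinearMap.mul ℝ ℂ (conj a))

theorem reL_apply (a X : ℂ) : reL a X = (conj a * X).re := rfl
theorem imL_apply (a X : ℂ) : imL a X = (conj a * X).im := rfl

/-- `X ↦ α Re (conj z₁ X₁) + β Re (conj z₂ X₂)` -/
def covR (α β : ℝ) (z : E) : E →L[ℝ] ℝ :=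
  α • (reL z.1).comp (ContinuousLinearMap.fst ℝ ℂ ℂ)
    + β • (reL z.2).comp (ContinuousLinearMap.snd ℝ ℂ ℂ)

/-- `X ↦ A Im (conj z₁ X₁) + B Im (conj z₂ X₂)` -/
def covI (A B : ℝ) (z : E) : E →L[ℝ] ℝ :=
  A • (imL z.1).comp (ContinuousLinearMap.fst ℝ ℂ ℂ)
    + B • (imL z.2).comp (ContinuousLinearMap.snd ℝ ℂ ℂ)

theorem covR_apply (α β : ℝ) (z X : E) :
    covR α β z X = α * (conj z.1 * X.1).re + β * (conj z.2 * X.2).re := rfl
theorem covI_apply (A B : ℝ) (z X : E) :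
    covI A B z X = A * (conj z.1 * X.1).im + B * (conj z.2 * X.2).im := rfl

/-- rapidly decreasing measurable function -/
structure Rap (g : ℂ → ℂ) : Prop where
  meas : Measurable g
  bdd : ∀ k : ℕ, ∃ K : ℝ, ∀ ξ, ‖ξ‖ ^ k * ‖g ξ‖ ≤ K

/-- heat extension of the function with Fourier transform `g` (time is `max t 0`, so that it is
defined and continuous for all real `t`); `ch z ξ = exp(2πi(z.re ξ.re + z.im ξ.im))`. -/
def HE (g : ℂ → ℂ) (t : ℝ) (z : ℂ) : ℂ :=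
  ∫ ξ : ℂ, ch z ξ * (((Real.exp (-(max t 0) * ‖ξ‖ ^ 2) : ℝ) : ℂ) * g ξ)

/-- smooth admissible triple: `G = DU`, `PIq ≥ 0` everywhere -/
structure Sm (U : E → ℝ) (G η : E → (E →L[ℝ] ℝ)) : Prop where
  der : ∀ z, HasFDerivAt U (G z) z
  cG : ContDiff ℝ 1 G
  cη : ContDiff ℝ 1 η
  U0 : U 0 = 0
  G0 : G 0 = 0
  η0 : η 0 = 0
  pi : ∀ z X Y, CR X Y → 0 ≤ PIq (fderiv ℝ G z) (fderiv ℝ η z) X Y

/-- admissible triple of low regularity: `G = DU` and `η` locally Lipschitz, odd, `PIq ≥ 0` a.e. -/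
structure Adm (U : E → ℝ) (G η : E → (E →L[ℝ] ℝ)) : Prop where
  der : ∀ z, HasFDerivAt U (G z) z
  lipG : ∀ R : ℝ, ∃ K : ℝ≥0, LipschitzOnWith K G (Metric.closedBall 0 R)
  lipη : ∀ R : ℝ, ∃ K : ℝ≥0, LipschitzOnWith K η (Metric.closedBall 0 R)
  U0 : U 0 = 0
  oddG : ∀ z, G (-z) = -G z
  oddη : ∀ z, η (-z) = -η z
  pi : ∀ᵐ z : E, DifferentiableAt ℝ G z ∧ DifferentiableAt ℝ η z ∧
    ∀ X Y, CR X Y → 0 ≤ PIq (fderiv ℝ G z) (fderiv ℝ η z) X Y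

/-! ## the explicit function -/

/-- `μ / x` -/
def mt (θ x : ℝ) : ℝ := (1 - θ) + pf θ * mux θ x
/-- `ν = u - w u'` -/
def nt (θ x : ℝ) : ℝ := -1 + (1 - θ) * x + pf θ * nu θ x
def uu (θ x : ℝ) : ℝ := -1 + x + pf θ * h0 θ x
def uu1 (θ x : ℝ) : ℝ := 1 + pf θ * h1 θ x

/-- the constant of the theorem -/
def CC (p : ℝ) : ℝ := p - 1 + (p - 2) / 30
/-- `x₁ = p/(1+C) = 1/F` -/
def x1 (p : ℝ) : ℝ := p / (1 + CC p)
/-- `u'(x₁)` -/
def DD (p : ℝ) : ℝ := uu1 (1 / p) (x1 p)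
def cc (p : ℝ) : ℝ := (CC p / (1 + CC p)) ^ (p - 1) * (1 + CC p) / DD p
def mm (p : ℝ) : ℝ := (p - 2) * (1 - (1 + CC p) ^ 2 * q0 (x1 p) / (p * CC p * DD p))
def MM (p : ℝ) : ℝ := (p - 2) * (1 + CC p) ^ 2 * r0 (x1 p) / (CC p * DD p)

/-- coefficient functions in region 1, `C r ≤ s` (homogeneous of degree `p-2` in `(r,s)`) -/
def al1 (p r s : ℝ) : ℝ := cc p * p ^ 2 * (r + s) ^ (p - 2) * mt (1 / p) (p * (r / (r + s)))
def be1 (p r s : ℝ) : ℝ :=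
  cc p * p * (r + s) ^ (p - 2) * (nt (1 / p) (p * (r / (r + s))) / (1 - r / (r + s)))
def A1 (p r s : ℝ) : ℝ :=
  cc p * p ^ 2 * (r + s) ^ (p - 2) *
    (mt (1 / p) (p * (r / (r + s))) - pf (1 / p) * q0xx (p * (r / (r + s))))
def B1 (p r s : ℝ) : ℝ :=
  cc p * p * (r + s) ^ (p - 2) *
    (pf (1 / p) * r0 (p * (r / (r + s))) / (1 - r / (r + s)) ^ 2
      - nt (1 / p) (p * (r / (r + s))) / (1 - r / (r + s)))
def W1 (p r s : ℝ) : ℝ := cc p * (r + s) ^ p * uu (1 / p) (p * (r / (r + s)))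

/-- coefficient functions in region 2, `s ≤ C r` -/
def al2 (p r _s : ℝ) : ℝ := p * CC p ^ p * r ^ (p - 2)
def be2 (p _r s : ℝ) : ℝ := -(p * s ^ (p - 2))
def A2 (p r s : ℝ) : ℝ := 2 * CC p ^ p * r ^ (p - 2) + mm p * (s ^ p / r ^ 2)
def B2 (p _r s : ℝ) : ℝ := (MM p + p) * s ^ (p - 2)
def W2 (p r s : ℝ) : ℝ := CC p ^ p * r ^ p - s ^ p

def al (p r s : ℝ) : ℝ := if CC p * r ≤ s then al1 p r s else al2 p r s
def be (p r s : ℝ) : ℝ := if CC p * r ≤ s then be1 p r s else be2 p r s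
def Af (p r s : ℝ) : ℝ := if CC p * r ≤ s then A1 p r s else A2 p r s
def Bf (p r s : ℝ) : ℝ := if CC p * r ≤ s then B1 p r s else B2 p r s
def Wf (p r s : ℝ) : ℝ := if CC p * r ≤ s then W1 p r s else W2 p r s

def Up (p : ℝ) (z : E) : ℝ := Wf p ‖z.1‖ ‖z.2‖
def Gp (p : ℝ) (z : E) : E →L[ℝ] ℝ := covR (al p ‖z.1‖ ‖z.2‖) (be p ‖z.1‖ ‖z.2‖) z
def ηp (p : ℝ) (z : E) : E →L[ℝ] ℝ := covI (Af p ‖z.1‖ ‖z.2‖) (Bf p ‖z.1‖ ‖z.2‖) z

/-- the reduced quadratic form; `αr, αs` etc. are the first derivatives in r, s, `e = ±1` -/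
def QQ (e r s α αr αs β βr βs A Ar As B Br Bs a b c : ℝ) : ℝ :=
  (α + r * αr) * (c + a) ^ 2 + e * (r * αs + s * βr) * ((c + a) * (b + c))
    + (β + s * βs) * (b + c) ^ 2 + α * (c - a) ^ 2 + β * (b - c) ^ 2
    + (2 * A + r * Ar) * (c ^ 2 - a ^ 2) + e * (r * As) * ((b + c) * (c - a))
    + e * (s * Br) * ((c + a) * (b - c)) + (2 * B + s * Bs) * (b ^ 2 - c ^ 2)

/-- linear form `(r,s) ↦ u r + v s` on `ℝ × ℝ` -/
def lin2 (u v : ℝ) : ℝ × ℝ →L[ℝ] ℝ :=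
  u • ContinuousLinearMap.fst ℝ ℝ ℝ + v • ContinuousLinearMap.snd ℝ ℝ ℝ

theorem lin2_apply (u v : ℝ) (x : ℝ × ℝ) : lin2 u v x = u * x.1 + v * x.2 := rfl

end Helper85.IW
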