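import Pool.Agent.Helper85.IW.Statements
import Pool.Agent.Helper85.IW.Cert1
import Pool.Agent.Helper85.IW.Cert2
import Pool.Agent.Helper85.IW.Cert3

set_option autoImplicit false

namespace Helper85.IW

/-- positive semidefiniteness from the minors -/
theorem psd3 (A B C D E F v y z : ℝ) (hD : 0 < D) (hm : 0 < D * F - E ^ 2)
    (hdet : 0 ≤ A * (D * F - E ^ 2) - (B ^ 2 * F - 2 * B * C * E + C ^ 2 * D)) :
    0 ≤ A * v ^ 2 + 2 * B * (v * y) + 2 * C * (v * z) + D * y ^ 2 + F * z ^ 2 + 2 * E * (y * z) := by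
  have key : D * (D * F - E ^ 2) *
      (A * v ^ 2 + 2 * B * (v * y) + 2 * C * (v * z) + D * y ^ 2 + F * z ^ 2 + 2 * E * (y * z))
      = (D * F - E ^ 2) * (D * y + E * z + B * v) ^ 2
        + ((D * F - E ^ 2) * z + (D * C - B * E) * v) ^ 2
        + D * (A * (D * F - E ^ 2) - (B ^ 2 * F - 2 * B * C * E + C ^ 2 * D)) * v ^ 2 := by
    ring
  have h : 0 ≤ D * (D * F - E ^ 2) *
      (A * v ^ 2 + 2 * B * (v * y) + 2 * C * (v * z) + D * y ^ 2 + F * z ^ 2 + 2 * E * (y * z)) := by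
    rw [key]; positivity
  exact nonneg_of_mul_nonneg_right h (by positivity)

theorem E1 : StE1 := by
  intro θ x h0 h1 hx hx1 v y z
  have hD := Mxx_pos θ x h0 h1 hx hx1
  have hm := m2_pos θ x h0 h1 hx hx1
  have hN := detN_pos θ x h0 h1 hx hx1
  have hP := detP_pos θ x h0 h1 hx hx1
  unfold m2 at hm
  constructor
  · have := psd3 (Nvv θ x) (Nvx θ x) (Nvy θ x) (Mxx θ x) (-(Mxy θ x) / 2) (Myy θ x) v y z hD
      (by nlinarith) (by unfold detN m2 at hN; nlinarith)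
    nlinarith
  · have := psd3 (Pvv θ x) (Pvx θ x) (Pvy θ x) (Mxx θ x) (Mxy θ x / 2) (Myy θ x) v y z hD
      (by nlinarith) (by unfold detP m2 at hP; nlinarith)
    nlinarith

end Helper85.IW
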