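import Pool.Agent.Helper85.IW.Statements

set_option autoImplicit false
set_option maxSynthPendingDepth 3

open MeasureTheory Complex
open scoped ENNReal NNReal ComplexConjugate

namespace Helper85.IW

open Helper72.BA

/-- The final inequality in the form of the frozen statement, from the two parts. -/
theorem top (hF : StF) (hF2 : StF2) (p : ℝ) (hp : 2 ≤ p) (f : SchwartzMap ℂ ℂ) :
    eLpNorm
        (fun z : ℂ => ∫ ξ : ℂ,
          Complex.exp (2 * (Real.pi : ℂ) * Complex.I * ((z.re * ξ.re + z.im * ξ.im : ℝ) : ℂ)) *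
            ((starRingEnd ℂ ξ / ξ) *
              ∫ w : ℂ, Complex.exp (-(2 * (Real.pi : ℂ) * Complex.I *
                ((w.re * ξ.re + w.im * ξ.im : ℝ) : ℂ))) * f w))
        (ENNReal.ofReal p) volume
      ≤ ENNReal.ofReal (p - 1 + (p - 2) / 30) *
        eLpNorm (fun z : ℂ => f z) (ENNReal.ofReal p) volume := by
  have e : (fun z : ℂ => ∫ ξ : ℂ,
          Complex.exp (2 * (Real.pi : ℂ) * Complex.I * ((z.re * ξ.re + z.im * ξ.im : ℝ) : ℂ)) *
            ((starRingEnd ℂ ξ / ξ) *
              ∫ w : ℂ, Complex.exp (-(2 * (Real.pi : ℂ) * Complex.I *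
                ((w.re * ξ.re + w.im * ξ.im : ℝ) : ℂ))) * f w)) = fun z => Tn 1 f z := by
    funext z
    simp only [Tn, pow_one]
  rw [e]
  rcases hp.eq_or_lt with rfl | hp
  · have := hF2 f
    have h2 : ENNReal.ofReal 2 = 2 := by simp
    rw [h2]
    have h1 : ENNReal.ofReal (2 - 1 + (2 - 2) / 30 : ℝ) = 1 := by norm_num
    rw [h1, one_mul]
    exact this
  · exact hF p hp f

end Helper85.IW
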