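import Pool.Agent.Helper85.IW.E1
import Pool.Agent.Helper85.IW.D4
import Pool.Agent.Helper85.IW.Top
import Pool.Agent.Helper85.IW_D5
import Pool.Agent.Helper85.IW_D5a
import Pool.Agent.Helper1.IW.B2a
import Pool.Agent.Helper1.IW.C2
import Pool.Agent.Helper1.IW.F
import Pool.Agent.Helper17.IW_A5
import Pool.Agent.Helper17.IW_D3
import Pool.Agent.Helper24.IW_C1a
import Pool.Agent.Helper35.IW_E2
import Pool.Agent.Helper36.IW_A1
import Pool.Agent.Helper36.IW_A2
import Pool.Agent.Helper36.IW_D0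
import Pool.Agent.Helper37.IW_D4a
import Pool.Agent.Helper37.IW_D6
import Pool.Agent.Helper37.IW_I
import Pool.Agent.Helper42.IW_A3
import Pool.Agent.Helper42.IW_A6
import Pool.Agent.Helper52.IW_E3
import Pool.Agent.Helper52.IW_E3a
import Pool.Agent.Helper57.IW_D1
import Pool.Agent.Helper57.IW_D1a
import Pool.Agent.Helper7.IW_B1
import Pool.Agent.Helper7.IW_C1
import Pool.Agent.Helper73.IW_B2
import Pool.Agent.Helper75.IW_D2
import Pool.Agent.Helper75.IW_D2abc
import Pool.Agent.Helper77.IW_A4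
import Pool.Agent.Helper77.IW_F2
import Pool.Agent.Helper78.IW_D4b
import Pool.Agent.Helper78.IW_K
import Pool.Agent.Helper78.IW_D7

set_option autoImplicit false
set_option maxSynthPendingDepth 3

open MeasureTheory Complex

namespace Helper85.IW

theorem pA1 : StA1 := M_A1.main
theorem pA2 : StA2 := M_A2.main pA1
theorem pA3 : StA3 := Helper42.IW_A3.main pA1
theorem pA4 : StA4 := M_A4.main pA1
theorem pA5 : StA5 := M_A5.main pA1
theorem pA6 : StA6 := Helper42.IW_A6.main pA1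
theorem pB1 : StB1 := M_B1.main
theorem pB2a : StB2a := M_B2a.main pA1 pA2 pA3 pA5 pB1
theorem pB2 : StB2 := Helper73.IWB2.main pA1 pA2 pA4 pA5 pB2a
theorem pC1a : StC1a := M_C1a.main
theorem pC1 : StC1 := M_C1.main pC1a
theorem pC2 : StC2 := M_C2.main pA1 pA2 pA5 pB2 pC1
theorem pK : StK := M_K.main
theorem pI : StI := Pool.Agent.Helper37.IW_I.main pK
theorem pD0 : StD0 := M_D0.main
theorem pD5a : StD5a := M_D5a.main
theorem pD1a : StD1a := Helper57.IW_D1a.main pD5a
theorem pD1 : StD1 := Helper57.IW_D1.main pD0 pD1a pI pK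
theorem pD2 : StD2 := M_D2.main pK pI M_D2abc.mainD2a M_D2abc.mainD2b M_D2abc.mainD2c
theorem pD3 : StD3 := M_D3.main
theorem pD4 : StD4 := D4 Pool.Agent.Helper37.IW_D4a.main M_D4b.main
theorem pE1 : StE1 := E1
theorem pD5 : StD5 := M_D5.main pK pE1 pD5a
theorem pE2 : StE2 := M_E2.main pK
theorem pD6 : StD6 := Pool.Agent.Helper37.IW_D6.main pK pE2
theorem pD7 : StD7 := M_D7.main pD1 pD2 pD3 pD4 pD5 pD6
theorem pE3a : StE3a := Helper52.IW.M_E3a.main
theorem pE3 : StE3 := Helper52.IW.M_E3.main pK pE3a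
theorem pFin : StF := M_F.main pA1 pA2 pA5 pA6 pC2 pD7 pE3 pK
theorem pF2 : StF2 := M_F2.main pA1 pA5 pA6

end Helper85.IW
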