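import Pool.Agent.Helper85.IW.Defs

/-!
# Statements of the modules (helper85, MP_3dd6d4_an, n = 1)
-/

set_option autoImplicit false
set_option maxSynthPendingDepth 3

open MeasureTheory Complex Filter Topology
open scoped ENNReal NNReal ComplexConjugate

noncomputable section

namespace Helper85.IW

open Helper72.BA

/-! ### Part A: heat extensions -/

/-- A1 -/
def StA1 : Prop :=
  (∀ g : ℂ → ℂ, Rap g → Integrable g ∧ Nice g ∧ ∀ k : ℕ, Integrable (fun ξ => ‖ξ‖ ^ k * ‖g ξ‖)) ∧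
  (∀ (g m : ℂ → ℂ), Rap g → Measurable m → (∃ (k : ℕ) (K : ℝ), ∀ ξ, ‖m ξ‖ ≤ K * (1 + ‖ξ‖) ^ k) →
    Rap (fun ξ => m ξ * g ξ))

/-- A2 -/
def StA2 : Prop := ∀ g : ℂ → ℂ, Rap g →
  (∀ t z, ‖HE g t z‖ ≤ ∫ ξ, ‖g ξ‖) ∧
  Continuous (fun q : ℝ × ℂ => HE g q.1 q.2)

/-- A3 -/
def StA3 : Prop := ∀ g : ℂ → ℂ, Rap g → ∀ t z,
  HasLineDerivAt ℝ (HE g t) (HE (fun ξ => (2 * Real.pi * I * ξ.re) * g ξ) t z) z 1 ∧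
  HasLineDerivAt ℝ (HE g t) (HE (fun ξ => (2 * Real.pi * I * ξ.im) * g ξ) t z) z I

/-- A4 -/
def StA4 : Prop := ∀ g : ℂ → ℂ, Rap g → ∀ (t : ℝ), 0 < t → ∀ z,
  HasDerivAt (fun s : ℝ => HE g s z) (HE (fun ξ => (-(‖ξ‖ ^ 2 : ℝ) : ℂ) * g ξ) t z) t

/-- A5 -/
def StA5 : Prop := ∀ g : ℂ → ℂ, Rap g → ∀ t : ℝ,
  ∫⁻ z, ‖HE g t z‖ₑ ^ 2 = ∫⁻ ξ, ‖((Real.exp (-(max t 0) * ‖ξ‖ ^ 2) : ℝ) : ℂ) * g ξ‖ₑ ^ 2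

/-- A6: `gf f` is the Fourier transform of `f`, `gT f` that of `T f`. -/
def gf (f : ℂ → ℂ) (ξ : ℂ) : ℂ :=
  ∫ w : ℂ, Complex.exp (-(2 * (Real.pi : ℂ) * Complex.I *
        ((w.re * ξ.re + w.im * ξ.im : ℝ) : ℂ))) * f w
def gT (f : ℂ → ℂ) (ξ : ℂ) : ℂ := (starRingEnd ℂ ξ / ξ) * gf f ξ

def StA6 : Prop := ∀ f : SchwartzMap ℂ ℂ,
  Rap (gf f) ∧ Rap (gT f) ∧ (∀ ξ, ξ * gT f ξ = conj ξ * gf f ξ) ∧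
  (∀ z, HE (gf f) 0 z = f z) ∧ (∀ z, HE (gT f) 0 z = Tn 1 f z)

/-! ### Part B: the flow theorem for smooth triples -/

/-- B1 (spatial inequality) -/
def StB1 : Prop := ∀ (U : E → ℝ) (G η : E → (E →L[ℝ] ℝ)), Sm U G η →
  ∀ (F Fx Fy Fxx Fxy Fyy : ℂ → E),
    Continuous F → Continuous Fx → Continuous Fy → Continuous Fxx → Continuous Fxy →
    Continuous Fyy →
    (∃ K : ℝ, ∀ z, ‖F z‖ ≤ K) →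
    MemLp F 2 → MemLp Fx 2 → MemLp Fy 2 → MemLp Fxx 2 → MemLp Fxy 2 → MemLp Fyy 2 →
    (∀ z, HasLineDerivAt ℝ F (Fx z) z 1) → (∀ z, HasLineDerivAt ℝ F (Fy z) z I) →
    (∀ z, HasLineDerivAt ℝ Fx (Fxx z) z 1) → (∀ z, HasLineDerivAt ℝ Fx (Fxy z) z I) →
    (∀ z, HasLineDerivAt ℝ Fy (Fxy z) z 1) → (∀ z, HasLineDerivAt ℝ Fy (Fyy z) z I) →
    (∀ z, CR (Fx z) (Fy z)) →
    ∫ z, G (F z) (Fxx z + Fyy z) ≤ 0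

/-- B2a: the spatial inequality for heat extensions -/
def StB2a : Prop := ∀ (U : E → ℝ) (G η : E → (E →L[ℝ] ℝ)), Sm U G η →
  ∀ g₀ g₁ : ℂ → ℂ, Rap g₀ → Rap g₁ → (∀ ξ, ξ * g₁ ξ = conj ξ * g₀ ξ) → ∀ t : ℝ,
    ∫ z, G (HE g₀ t z, HE g₁ t z) (HE (fun ξ => (-(‖ξ‖ ^ 2 : ℝ) : ℂ) * g₀ ξ) t z,
      HE (fun ξ => (-(‖ξ‖ ^ 2 : ℝ) : ℂ) * g₁ ξ) t z) ≤ 0

/-- B2 (flow) -/
def StB2 : Prop := ∀ (U : E → ℝ) (G η : E → (E →L[ℝ] ℝ)), Sm U G η →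
  ∀ g₀ g₁ : ℂ → ℂ, Rap g₀ → Rap g₁ → (∀ ξ, ξ * g₁ ξ = conj ξ * g₀ ξ) →
    0 ≤ ∫ z, U (HE g₀ 0 z, HE g₁ 0 z)

/-! ### Part C: mollification -/

/-- smooth bump supported in the ball of radius `1/(n+1)` -/
def bmp (n : ℕ) : ContDiffBump (0 : E) where
  rIn := 1 / (2 * ((n : ℝ) + 1))
  rOut := 1 / ((n : ℝ) + 1)
  rIn_pos := by positivity
  rIn_lt_rOut := by
    have : (0 : ℝ) < (n : ℝ) + 1 := by positivity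
    rw [div_lt_div_iff_of_pos_left one_pos (by positivity) this]
    linarith

/-- normalised bump -/
def rho (n : ℕ) (y : E) : ℝ := (bmp n).normed volume y

/-- mollification -/
def mol {V : Type} [NormedAddCommGroup V] [NormedSpace ℝ V] (n : ℕ) (H : E → V) (z : E) : V :=
  ∫ y, rho n y • H (z - y)

/-- C1a: mollification of an odd locally Lipschitz function -/
def StC1a : Prop := ∀ H : E → (E →L[ℝ] ℝ),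
  (∀ R : ℝ, ∃ K : ℝ≥0, LipschitzOnWith K H (Metric.closedBall 0 R)) →
  (∀ z, H (-z) = -H z) → (∀ᵐ z : E, DifferentiableAt ℝ H z) → ∀ n : ℕ,
    ContDiff ℝ 1 (mol n H) ∧ mol n H 0 = 0 ∧
    (∀ z, Integrable (fun y => rho n y • fderiv ℝ H (z - y)) ∧
      fderiv ℝ (mol n H) z = ∫ y, rho n y • fderiv ℝ H (z - y)) ∧
    (∀ (R : ℝ) (K : ℝ≥0), LipschitzOnWith K H (Metric.closedBall 0 (R + 1)) →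
      LipschitzOnWith K (mol n H) (Metric.closedBall 0 R))

/-- C1 -/
def StC1 : Prop := ∀ (U : E → ℝ) (G η : E → (E →L[ℝ] ℝ)), Adm U G η →
  ∃ (Us : ℕ → E → ℝ) (Gs ηs : ℕ → E → (E →L[ℝ] ℝ)),
    (∀ n, Sm (Us n) (Gs n) (ηs n)) ∧
    (∀ z, Tendsto (fun n => Us n z) atTop (𝓝 (U z))) ∧
    (∀ R : ℝ, ∃ K : ℝ, ∀ n z, ‖z‖ ≤ R → |Us n z| ≤ K * ‖z‖ ^ 2)

/-- C2 -/
def StC2 : Prop := ∀ (U : E → ℝ) (G η : E → (E →L[ℝ] ℝ)), Adm U G η →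
  ∀ g₀ g₁ : ℂ → ℂ, Rap g₀ → Rap g₁ → (∀ ξ, ξ * g₁ ξ = conj ξ * g₀ ξ) →
    Integrable (fun z => U (HE g₀ 0 z, HE g₁ 0 z)) ∧ 0 ≤ ∫ z, U (HE g₀ 0 z, HE g₁ 0 z)

/-! ### Part D: the explicit triple is admissible -/

/-- D0: differentiability of a function of the two moduli -/
def StD0 : Prop := ∀ (W : ℝ × ℝ → ℝ) (z : E) (α β : ℝ),
  HasFDerivWithinAt W (lin2 (α * ‖z.1‖) (β * ‖z.2‖)) {q | 0 ≤ q.1 ∧ 0 ≤ q.2} (‖z.1‖, ‖z.2‖) →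
  HasFDerivAt (fun z : E => W (‖z.1‖, ‖z.2‖)) (covR α β z) z

/-- elementary facts about the constants -/
def StK : Prop := ∀ p : ℝ, 2 < p →
  0 < cc p ∧ 1 < CC p ∧ 1 ≤ DD p ∧ 30 / 31 ≤ x1 p ∧ x1 p ≤ 1 ∧
  1 + CC p = p * pF (1 / p) ∧ x1 p * pF (1 / p) = 1 ∧
  uu (1 / p) (x1 p) = 0 ∧
  0 ≤ mm p ∧ mm p ≤ (p - 2) * (9 / 10 - 15 / 100 / CC p) ∧
  (p - 2) * (69 / 100) * (1 + CC p) ^ 2 / CC p ≤ MM p ∧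
  MM p ≤ (p - 2) * (77 / 100) * (1 + CC p) ^ 2 / CC p

/-- the two regions match at the interface `C r = s` -/
def StI : Prop := ∀ p : ℝ, 2 < p → ∀ r s : ℝ, 0 < r → CC p * r = s →
  al1 p r s = al2 p r s ∧ be1 p r s = be2 p r s ∧ A1 p r s = A2 p r s ∧ B1 p r s = B2 p r s ∧
  W1 p r s = W2 p r s

/-- D1a: derivative in region 1 (as a function of `(r,s)`) -/
def StD1a : Prop := ∀ p : ℝ, 2 < p → ∀ r s : ℝ, 0 ≤ r → 0 < s →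
  HasFDerivAt (fun q : ℝ × ℝ => W1 p q.1 q.2) (lin2 (al1 p r s * r) (be1 p r s * s)) (r, s)

/-- D1: `DU = G` everywhere -/
def StD1 : Prop := ∀ p : ℝ, 2 < p → ∀ z : E, HasFDerivAt (Up p) (Gp p z) z

/-- D2a: Lipschitz estimate for `(r+s)^κ a(r/(r+s)) z₁` and `... z₂` -/
def StD2a : Prop := ∀ (κ : ℝ) (a : ℝ → ℝ) (u v : ℝ) (K : ℝ≥0), 0 < κ → 0 ≤ u → v ≤ 1 →
  LipschitzOnWith K a (Set.Icc u v) → ∀ R : ℝ, ∃ K' : ℝ≥0,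
    LipschitzOnWith K' (fun z : E => ((‖z.1‖ + ‖z.2‖) ^ κ * a (‖z.1‖ / (‖z.1‖ + ‖z.2‖))) • z.1)
      {z : E | ‖z‖ ≤ R ∧ u * (‖z.1‖ + ‖z.2‖) ≤ ‖z.1‖ ∧ ‖z.1‖ ≤ v * (‖z.1‖ + ‖z.2‖)} ∧
    LipschitzOnWith K' (fun z : E => ((‖z.1‖ + ‖z.2‖) ^ κ * a (‖z.1‖ / (‖z.1‖ + ‖z.2‖))) • z.2)
      {z : E | ‖z‖ ≤ R ∧ u * (‖z.1‖ + ‖z.2‖) ≤ ‖z.1‖ ∧ ‖z.1‖ ≤ v * (‖z.1‖ + ‖z.2‖)}

/-- D2b: `z ↦ |z|^κ z` is Lipschitz on balls -/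
def StD2b : Prop := ∀ (κ : ℝ), 0 < κ → ∀ R : ℝ, ∃ K : ℝ≥0,
  LipschitzOnWith K (fun z : ℂ => (‖z‖ ^ κ) • z) (Metric.closedBall 0 R)

/-- D2c: glueing of Lipschitz functions along two closed sets covering the space -/
def StD2c : Prop := ∀ (F : E → (E →L[ℝ] ℝ)) (S₁ S₂ : Set E) (K : ℝ≥0) (R : ℝ),
  IsClosed S₁ → IsClosed S₂ → S₁ ∪ S₂ = Set.univ →
  LipschitzOnWith K F (S₁ ∩ Metric.closedBall 0 R) →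
  LipschitzOnWith K F (S₂ ∩ Metric.closedBall 0 R) →
  LipschitzOnWith K F (Metric.closedBall 0 R)

/-- D2 -/
def StD2 : Prop := ∀ p : ℝ, 2 < p → ∀ R : ℝ,
  (∃ K : ℝ≥0, LipschitzOnWith K (Gp p) (Metric.closedBall 0 R)) ∧
  (∃ K : ℝ≥0, LipschitzOnWith K (ηp p) (Metric.closedBall 0 R))

/-- D3: the singular set is a null set -/
def StD3 : Prop := ∀ C : ℝ, 0 < C → ∀ᵐ z : E, z.1 ≠ 0 ∧ z.2 ≠ 0 ∧ C * ‖z.1‖ ≠ ‖z.2‖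

/-- the quadratic form in polar coordinates, in terms of the values and first derivatives of the
coefficient functions at `(‖z₁‖, ‖z₂‖)` -/
def PIx (z : E) (α αr αs β βr βs A Ar As B Br Bs : ℝ) (X Y : E) : ℝ :=
  ((αr * ((conj z.1 * X.1).re / ‖z.1‖) + αs * ((conj z.2 * X.2).re / ‖z.2‖)) * (conj z.1 * X.1).re
    + α * ‖X.1‖ ^ 2
    + (βr * ((conj z.1 * X.1).re / ‖z.1‖) + βs * ((conj z.2 * X.2).re / ‖z.2‖)) * (conj z.2 * X.2).re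
    + β * ‖X.2‖ ^ 2)
  + ((αr * ((conj z.1 * Y.1).re / ‖z.1‖) + αs * ((conj z.2 * Y.2).re / ‖z.2‖)) * (conj z.1 * Y.1).re
    + α * ‖Y.1‖ ^ 2
    + (βr * ((conj z.1 * Y.1).re / ‖z.1‖) + βs * ((conj z.2 * Y.2).re / ‖z.2‖)) * (conj z.2 * Y.2).re
    + β * ‖Y.2‖ ^ 2)
  + ((Ar * ((conj z.1 * X.1).re / ‖z.1‖) + As * ((conj z.2 * X.2).re / ‖z.2‖)) * (conj z.1 * Y.1).im
    + A * (conj X.1 * Y.1).im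
    + (Br * ((conj z.1 * X.1).re / ‖z.1‖) + Bs * ((conj z.2 * X.2).re / ‖z.2‖)) * (conj z.2 * Y.2).im
    + B * (conj X.2 * Y.2).im)
  - ((Ar * ((conj z.1 * Y.1).re / ‖z.1‖) + As * ((conj z.2 * Y.2).re / ‖z.2‖)) * (conj z.1 * X.1).im
    + A * (conj Y.1 * X.1).im
    + (Br * ((conj z.1 * Y.1).re / ‖z.1‖) + Bs * ((conj z.2 * Y.2).re / ‖z.2‖)) * (conj z.2 * X.2).im
    + B * (conj Y.2 * X.2).im)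

/-- D4a: derivative computation -/
def StD4a : Prop := ∀ (α β A B : ℝ × ℝ → ℝ) (z : E), z.1 ≠ 0 → z.2 ≠ 0 →
  ∀ αr αs βr βs Ar As Br Bs : ℝ,
  HasFDerivAt α (lin2 αr αs) (‖z.1‖, ‖z.2‖) → HasFDerivAt β (lin2 βr βs) (‖z.1‖, ‖z.2‖) →
  HasFDerivAt A (lin2 Ar As) (‖z.1‖, ‖z.2‖) → HasFDerivAt B (lin2 Br Bs) (‖z.1‖, ‖z.2‖) →
  DifferentiableAt ℝ (fun z : E => covR (α (‖z.1‖, ‖z.2‖)) (β (‖z.1‖, ‖z.2‖)) z) z ∧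
  DifferentiableAt ℝ (fun z : E => covI (A (‖z.1‖, ‖z.2‖)) (B (‖z.1‖, ‖z.2‖)) z) z ∧
  ∀ X Y,
    PIq (fderiv ℝ (fun z : E => covR (α (‖z.1‖, ‖z.2‖)) (β (‖z.1‖, ‖z.2‖)) z) z)
      (fderiv ℝ (fun z : E => covI (A (‖z.1‖, ‖z.2‖)) (B (‖z.1‖, ‖z.2‖)) z) z) X Y
    = PIx z (α (‖z.1‖, ‖z.2‖)) αr αs (β (‖z.1‖, ‖z.2‖)) βr βs (A (‖z.1‖, ‖z.2‖)) Ar As
        (B (‖z.1‖, ‖z.2‖)) Br Bs X Y

/-- D4b: algebra -/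
def StD4b : Prop := ∀ z : E, z.1 ≠ 0 → z.2 ≠ 0 →
  ∀ α αr αs β βr βs A Ar As B Br Bs : ℝ, ∀ X Y, CR X Y → ∃ a b c a' b' c' : ℝ,
    PIx z α αr αs β βr βs A Ar As B Br Bs X Y
    = QQ 1 ‖z.1‖ ‖z.2‖ α αr αs β βr βs A Ar As B Br Bs a b c
      + QQ (-1) ‖z.1‖ ‖z.2‖ α αr αs β βr βs A Ar As B Br Bs a' b' c'

/-- D5a: derivative of `L^κ a(w)` -/
def StD5a : Prop := ∀ (κ : ℝ) (a : ℝ → ℝ) (a' r s : ℝ), 0 < r + s →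
  HasDerivAt a a' (r / (r + s)) →
  HasFDerivAt (fun q : ℝ × ℝ => (q.1 + q.2) ^ κ * a (q.1 / (q.1 + q.2)))
    (lin2 ((r + s) ^ (κ - 1) * (κ * a (r / (r + s)) + (1 - r / (r + s)) * a'))
      ((r + s) ^ (κ - 1) * (κ * a (r / (r + s)) - r / (r + s) * a'))) (r, s)

/-- D4: the quadratic form in polar coordinates -/
def StD4 : Prop := ∀ (α β A B : ℝ × ℝ → ℝ) (z : E), z.1 ≠ 0 → z.2 ≠ 0 →
  ∀ αr αs βr βs Ar As Br Bs : ℝ,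
  HasFDerivAt α (lin2 αr αs) (‖z.1‖, ‖z.2‖) → HasFDerivAt β (lin2 βr βs) (‖z.1‖, ‖z.2‖) →
  HasFDerivAt A (lin2 Ar As) (‖z.1‖, ‖z.2‖) → HasFDerivAt B (lin2 Br Bs) (‖z.1‖, ‖z.2‖) →
  DifferentiableAt ℝ (fun z : E => covR (α (‖z.1‖, ‖z.2‖)) (β (‖z.1‖, ‖z.2‖)) z) z ∧
  DifferentiableAt ℝ (fun z : E => covI (A (‖z.1‖, ‖z.2‖)) (B (‖z.1‖, ‖z.2‖)) z) z ∧
  ∀ X Y, CR X Y → ∃ a b c a' b' c' : ℝ,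
    PIq (fderiv ℝ (fun z : E => covR (α (‖z.1‖, ‖z.2‖)) (β (‖z.1‖, ‖z.2‖)) z) z)
      (fderiv ℝ (fun z : E => covI (A (‖z.1‖, ‖z.2‖)) (B (‖z.1‖, ‖z.2‖)) z) z) X Y
    = QQ 1 ‖z.1‖ ‖z.2‖ (α (‖z.1‖, ‖z.2‖)) αr αs (β (‖z.1‖, ‖z.2‖)) βr βs (A (‖z.1‖, ‖z.2‖)) Ar As
        (B (‖z.1‖, ‖z.2‖)) Br Bs a b c
      + QQ (-1) ‖z.1‖ ‖z.2‖ (α (‖z.1‖, ‖z.2‖)) αr αs (β (‖z.1‖, ‖z.2‖)) βr βs
        (A (‖z.1‖, ‖z.2‖)) Ar As (B (‖z.1‖, ‖z.2‖)) Br Bs a' b' c'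

/-- D5: region 1 -/
def StD5 : Prop := ∀ p : ℝ, 2 < p → ∀ r s : ℝ, 0 < r → CC p * r < s →
  ∃ αr αs βr βs Ar As Br Bs : ℝ,
  HasFDerivAt (fun q : ℝ × ℝ => al1 p q.1 q.2) (lin2 αr αs) (r, s) ∧
  HasFDerivAt (fun q : ℝ × ℝ => be1 p q.1 q.2) (lin2 βr βs) (r, s) ∧
  HasFDerivAt (fun q : ℝ × ℝ => A1 p q.1 q.2) (lin2 Ar As) (r, s) ∧
  HasFDerivAt (fun q : ℝ × ℝ => B1 p q.1 q.2) (lin2 Br Bs) (r, s) ∧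
  ∀ e : ℝ, e = 1 ∨ e = -1 → ∀ a b c : ℝ,
    0 ≤ QQ e r s (al1 p r s) αr αs (be1 p r s) βr βs (A1 p r s) Ar As (B1 p r s) Br Bs a b c

/-- D6: region 2 -/
def StD6 : Prop := ∀ p : ℝ, 2 < p → ∀ r s : ℝ, 0 < r → 0 < s → s < CC p * r →
  ∃ αr αs βr βs Ar As Br Bs : ℝ,
  HasFDerivAt (fun q : ℝ × ℝ => al2 p q.1 q.2) (lin2 αr αs) (r, s) ∧
  HasFDerivAt (fun q : ℝ × ℝ => be2 p q.1 q.2) (lin2 βr βs) (r, s) ∧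
  HasFDerivAt (fun q : ℝ × ℝ => A2 p q.1 q.2) (lin2 Ar As) (r, s) ∧
  HasFDerivAt (fun q : ℝ × ℝ => B2 p q.1 q.2) (lin2 Br Bs) (r, s) ∧
  ∀ e : ℝ, e = 1 ∨ e = -1 → ∀ a b c : ℝ,
    0 ≤ QQ e r s (al2 p r s) αr αs (be2 p r s) βr βs (A2 p r s) Ar As (B2 p r s) Br Bs a b c

/-- D7: admissibility -/
def StD7 : Prop := ∀ p : ℝ, 2 < p → Adm (Up p) (Gp p) (ηp p)

/-! ### Part E: inequalities -/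

/-- E1: region 1 matrix inequalities, `0 ≤ θ ≤ 1/2`, `0 ≤ x ≤ 1` -/
def StE1 : Prop := ∀ θ x : ℝ, 0 ≤ θ → 2 * θ ≤ 1 → 0 ≤ x → x ≤ 1 → ∀ v y z : ℝ,
  0 ≤ Nvv θ x * v ^ 2 + 2 * Nvx θ x * (v * y) + 2 * Nvy θ x * (v * z) + Mxx θ x * y ^ 2
      + Myy θ x * z ^ 2 - Mxy θ x * (y * z) ∧
  0 ≤ Pvv θ x * v ^ 2 + 2 * Pvx θ x * (v * y) + 2 * Pvy θ x * (v * z) + Mxx θ x * y ^ 2
      + Myy θ x * z ^ 2 + Mxy θ x * (y * z)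

/-- E2: region 2 inequality. `t = s/r`, `a = C^p (r/s)^(p-2)`, `|τ| ≤ mm * t`. -/
def StE2 : Prop := ∀ p : ℝ, 2 < p → ∀ a τ : ℝ, CC p ^ 2 ≤ a → |τ| ≤ mm p * CC p →
  ∀ v x y : ℝ,
  0 ≤ (p - 1) * (a - 1) * v ^ 2 + (2 * (p - 2) * a - τ) * (v * x) + (MM p - (p - 2)) * (v * y)
      + (p - 2) * a * x ^ 2 - τ * (x * y) + MM p * y ^ 2

/-- E3a: one variable inequality -/
def StE3a : Prop := ∀ p : ℝ, 2 < p →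
  (1 + 1 / CC p) ^ p ≤ p * (1 + 1 / CC p) - p * (p - 2) / (6 * CC p)

/-- E3: `U ≤ C^p r^p - s^p` in region 1 -/
def StE3 : Prop := ∀ p : ℝ, 2 < p → ∀ r s : ℝ, 0 ≤ r → 0 < s → CC p * r ≤ s →
  W1 p r s ≤ CC p ^ p * r ^ p - s ^ p

/-! ### Part F -/

/-- F: final theorem for `p > 2` -/
def StF : Prop := ∀ p : ℝ, 2 < p → ∀ f : SchwartzMap ℂ ℂ,
  eLpNorm (fun z => Tn 1 f z) (ENNReal.ofReal p) volume ≤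
    ENNReal.ofReal (p - 1 + (p - 2) / 30) * eLpNorm (fun z => f z) (ENNReal.ofReal p) volume

/-- F2: `p = 2` -/
def StF2 : Prop := ∀ f : SchwartzMap ℂ ℂ,
  eLpNorm (fun z => Tn 1 f z) 2 volume ≤ eLpNorm (fun z => f z) 2 volume

end Helper85.IW
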